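import Pool.Agent.Q191.PB.Pos

/-!
# MP_2c9a54_an, Q1: which periodic coefficients give only bounded solutions

For `x_{n+1} = 1 / (B_n x_n + x_{n-1})` with `B` nonnegative and periodic we give a necessary and
sufficient condition for all positive solutions to be bounded, and show that otherwise all positive
solutions are unbounded.  Here `x 0, x 1, …` are `x_{-1}, x_0, …`.
-/

set_option autoImplicit false

open Pool.Agent.Q191.PB

namespace Pool.Agent.Results.MP_2c9a54_an.Criterion

/-- Let `k ≥ 1` and let `B` be nonnegative with period `k` (in particular with least period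
`k ≥ 2`).

* Every positive solution is bounded if and only if `Crit B k`: either `B = 0`, or the residue
  classes modulo 4 containing an index `n` with `B n > 0` are exactly `{0, 2}`, or exactly
  `{1, 3}`, or all four and every cycle modulo `k` of the successor map `phi B` on the indices with
  positive coefficient has product of multipliers `lam B` less than `1`.
* If `Crit B k` fails then every positive solution is unbounded.
* If all `B n` are positive, `Crit B k` says that
  `∏_{j < k} B (n + 3 j) / (1 + B (n + 3 j) B (n + 3 j + 2)) < 1` for all `n`. -/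
theorem result (k : ℕ) (hk : 0 < k) (B : ℕ → ℝ) (hB : ∀ n, 0 ≤ B n)
    (hper : ∀ n, B (n + k) = B n) :
    ((∀ x : ℕ → ℝ, Sol B x → Bdd x) ↔ Crit B k) ∧
    (¬ Crit B k → ∀ x : ℕ → ℝ, Sol B x → ¬ Bdd x) ∧
    ((∀ n, 0 < B n) → (Crit B k ↔ ∀ n, ∏ j ∈ Finset.range k,
      B (n + 3 * j) / (1 + B (n + 3 * j) * B (n + 3 * j + 2)) < 1)) := by
  refine ⟨⟨fun h => ?_, fun h x hx => bdd_of_crit hx hB hk hper h⟩,
    fun h x hx hb => h (crit_of_bdd hx hB hk hper hb), fun hp => crit_pos hk hper hp⟩
  have hx : Sol B (orb B 1 1) := orb_sol hB one_pos one_pos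
  exact crit_of_bdd hx hB hk hper (h _ hx)

end Pool.Agent.Results.MP_2c9a54_an.Criterion
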